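import Mathlib
import Pool.Agent.H57.Cong

namespace Pool.Agent.Results.MP_270153_nt.Fails

open Finset Pool.Agent.H57.Cong

/-- rising factorial -/
def po (a : ℚ) (k : ℕ) : ℚ := ∏ i ∈ range k, (a + i)

/-- the truncated sum -/
def S (m N : ℕ) : ℚ :=
  ∑ k ∈ range (N + 1), (4 * (k : ℚ) - 1) ^ m * po (-1 / 2) k ^ 4 / (k.factorial : ℚ) ^ 4

lemma aux (d : ℤ) (h1 : Cong 3 4 (S 11 2) (d * 3)) (h2 : Cong 3 5 (S 11 5) (d * 9)) : False := by
  obtain ⟨a, ha, h1⟩ := h1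
  obtain ⟨b, hb, h2⟩ := h2
  have h3 : a - b = (S 11 2 / 3 - S 11 5 / 9) / 27 := by
    push_cast at h1 h2
    linarith
  have h4 : 3 ∣ (a - b).den := by
    rw [h3]; decide +kernel
  have h5 := h4.trans (Rat.sub_den_dvd a b)
  rcases (Nat.Prime.dvd_mul Nat.prime_three).1 h5 with h | h
  exacts [ha h, hb h]

/-- No integer constant works for every odd m. -/
theorem result : ¬ ∀ m : ℕ, Odd m → ∃ d : ℤ, ∀ p : ℕ, p.Prime → p ≠ 2 → ∀ r : ℕ, 1 ≤ r →
    Cong p (r + 3) (S m ((p ^ r + 1) / 2)) (d * p ^ r) ∧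
      Cong p (r + 3) (S m (p ^ r - 1)) (d * p ^ r) := by
  intro h
  obtain ⟨d, hd⟩ := h 11 (by decide)
  have h1 := (hd 3 (by norm_num) (by norm_num) 1 le_rfl).1
  have h2 := (hd 3 (by norm_num) (by norm_num) 2 (by norm_num)).1
  norm_num at h1 h2
  exact aux d h1 h2

end Pool.Agent.Results.MP_270153_nt.Fails
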